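import Mathlib
import Pool.Agent.J6H52.Branch.IsoTree

/-!
# Exact clusters of primes between record gaps, along all branches of regular subtrees of trees of integers

Let `f(x) = log x (log₂ x)² log₄ x / (log₃ x)²`, the size of the largest gaps between consecutive primes that are
known to occur up to `x`. Attach to every finite word over an alphabet with `k` letters an integer, in such a way
that no integer occurs infinitely often along one infinite branch of the tree of words. This tree has a regular
subtree, given by variable words `w_0, w_1, …` (words in which also a variable occurs; `w[a]` is the word `w` with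
the letter `a` in place of the variable), with the following property. For every `m` there is `s` between `m` and
`K(m)` such that for EVERY branch of the subtree, with the vertices `w_{J_0}[a_0] w_{J_1}[a_1] ⋯ w_{J_{l-1}}[a_{l-1}]`
(`l ≥ 1`, `J_0 < J_1 < …`, the first index being large), and for EVERY set of `s` vertices of the branch, the `s`
integers `y` attached to them are different and are for infinitely many `n` exactly the `y` with `n + y` prime and
`|y| ≤ c(m) f(n)`: the primes `n + y` are consecutive and form a cluster with gaps of record size on both sides.
The bounds `K(m)` and `c(m) > 0` depend on `m` only. The theorem does this for countably many labellings and residue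
classes at once, with the same variable words.

For an infinite sequence of integers (one branch) the corresponding theorem is in the starting files
(`IsolatedHereditarySets`). Here one regular subtree works for all of its continuum many branches (`k ≥ 2`): the
labels of a tree may have nothing to do with each other on different branches.

The proof. The ultrafilters of the Carlson–Simpson theorem give a family of ultrafilters `U_t` on the words which
begin with `t` (`Pool.Agent.J6H52.Branch.exists_ultra`). A property of `s`-element patterns either holds or fails
for `U`-almost all `y_1`, `U_{y_1}`-almost all `y_2`, …, and then there is a regular subtree for which it holds or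
fails for all chains of `s` words (`Pool.Agent.J6H52.Branch.chains`). As among any `K(m)` integers of one class
there are at least `m` which form an isolated exact pattern (`Pool.Agent.W126.RecIso.core`; the coloured
Maynard–Tao theorem inside the windows of the record sieve, starting files), the property `isolated pattern` cannot
fail for all `s` between `m` and `K(m)`.
-/

set_option autoImplicit false

open Filter

namespace Pool.Agent.Results.MP_028722_nt.IsolatedBranches

/-- The record scale `f(x) = log x (log₂ x)² log₄ x / (log₃ x)²` (iterated natural logarithms). -/
noncomputable def f (x : ℝ) : ℝ :=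
  Real.log x * (Real.log (Real.log x)) ^ 2 * Real.log (Real.log (Real.log (Real.log x))) /
    (Real.log (Real.log (Real.log x))) ^ 2

/-- For infinitely many `n` the primes at distance at most `c f(n)` from `n` are exactly the numbers `n + y`,
`y ∈ S`, and these are all `≡ r (mod q)`. -/
def IsolatedPattern (c : ℝ) (q r : ℕ) (S : Finset ℤ) : Prop :=
  ∃ᶠ n : ℕ in atTop, (∀ y : ℤ, |(y : ℝ)| ≤ c * f n → (((n : ℤ) + y).toNat.Prime ↔ y ∈ S)) ∧
    ∀ y ∈ S, (n : ℤ) + y ≡ r [ZMOD q]

/-- There are numbers `K m` and `c m > 0` such that the following holds. For every `j` let `P j` be a labelling of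
the words over `k ≥ 1` letters by integers, which is finite-to-one along every infinite branch, `q j` a squarefree
number and `r j` prime to `q j`. There are variable words `w 0, w 1, …` (`none` is the variable) such that for all
`j` and `m` there are `s` with `m ≤ s ≤ K m` and `N` for which for every increasing sequence `J` with `J 0 ≥ N`,
every sequence `a` of letters and EVERY set `L` of `s` positive integers the labels of the words
`w (J 0)[a 0] ⋯ w (J (l - 1))[a (l - 1)]`, `l ∈ L`, are `s` different integers which form an isolated pattern. -/
theorem result : ∃ (K : ℕ → ℕ) (c : ℕ → ℝ), (∀ m, 0 < c m) ∧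
    ∀ k : ℕ, 0 < k → ∀ P : ℕ → List (Fin k) → ℤ,
    (∀ j (a : ℕ → Fin k) (z : ℤ), {n : ℕ | P j ((List.range n).map a) = z}.Finite) →
    ∀ q r : ℕ → ℕ, (∀ j, Squarefree (q j)) → (∀ j, (r j).Coprime (q j)) →
    ∃ w : ℕ → List (Option (Fin k)), (∀ i, none ∈ w i) ∧ ∀ j m : ℕ, ∃ s N : ℕ, m ≤ s ∧ s ≤ K m ∧
      ∀ J : ℕ → ℕ, StrictMono J → N ≤ J 0 → ∀ (a : ℕ → Fin k) (L : Finset ℕ), L.card = s →
        (∀ l ∈ L, 1 ≤ l) →
        let S : Finset ℤ := L.image fun l => P j ((List.range l).flatMap fun i =>
          (w (J i)).map fun o => o.getD (a i))
        S.card = s ∧ IsolatedPattern (c m) (q j) (r j) S := by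
  obtain ⟨K, c, hc, h⟩ := Pool.Agent.J6H52.Branch.main_iso
  refine ⟨K, c, hc, fun k hk P hP q r hq hr => ?_⟩
  obtain ⟨w, hw, h1⟩ := h k hk P hP q r hq hr
  refine ⟨w, hw, fun j m => ?_⟩
  obtain ⟨s, N, h2, h3, h4⟩ := h1 j m
  exact ⟨s, N, h2, h3, fun J hJ hN a L hL hL1 => h4 J hJ hN a L hL hL1⟩

end Pool.Agent.Results.MP_028722_nt.IsolatedBranches
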